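import Pool.Agent.Helper40.NX3.EnLeOf
import Pool.Agent.Helper7.NX3.PairSieve

/-!
# Project NX2, part C: C3 energies are bounded
-/

set_option autoImplicit false

open Finset
open scoped BigOperators

namespace Pool.Agent.Helper57.NX3

noncomputable section

theorem en_le : ∃ C1 : ℝ, 1 ≤ C1 ∧ ∀ M : ℕ, 1 ≤ M → ∀ θ : ℝ, 0 < θ → ∃ z0 : ℕ, ∀ z : ℕ, z0 ≤ z →
    ∀ A : Finset ℕ, PS z A → ∀ b : ℕ, b ≤ z → ((2 : ℝ) ^ z) ^ θ ≤ 2 ^ b → En z A M b ≤ C1 :=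
  EnLe.en_le_of pair_sieve

end

end Pool.Agent.Helper57.NX3
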