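import Pool.Agent.Helper57.NX3.Defs
import Pool.Agent.Helper57.FP.PsiAvg

/-!
# Project NX2, part C: C3 energies are bounded (conditional on the pair sieve C1)
-/

set_option autoImplicit false

open Finset
open scoped BigOperators

namespace Pool.Agent.Helper57.NX3

noncomputable section

namespace EnLe

open Pool.Agent.Helper57.FP

/-- C1 -/
def PairSieve : Prop := ∃ C : ℝ, 0 < C ∧ ∃ Z0 : ℕ, ∀ Z : ℕ, Z0 ≤ Z → ∀ h : ℕ, 1 ≤ h →
    (((range Z).filter (fun n => n.Prime ∧ (n + h).Prime)).card : ℝ) ≤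
      C * ((h : ℝ) / h.totient) * (Z / (Real.log Z) ^ 2)

/-- `t / φ(t)` and `Psi` -/
theorem div_totient_le {t : ℕ} (ht : 1 ≤ t) : (t : ℝ) / t.totient ≤ Psi 2 (t : ℤ) := by
  have hφ : (0 : ℝ) < t.totient := by exact_mod_cast Nat.totient_pos.2 ht
  rw [div_le_iff₀ hφ]
  have h1 := Nat.totient_eq_mul_prod_factors t
  have h2 : (t.totient : ℝ) = t * ∏ p ∈ t.primeFactors, (1 - (p : ℝ)⁻¹) := by
    have := congrArg (fun q : ℚ => (q : ℝ)) h1
    push_cast at this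
    exact this
  rw [h2]
  unfold Psi
  rw [Int.natAbs_natCast]
  have h3 : (∏ q ∈ t.primeFactors, (1 + 1 / (q : ℝ)) ^ 2) *
      (t * ∏ p ∈ t.primeFactors, (1 - (p : ℝ)⁻¹)) =
      t * ∏ q ∈ t.primeFactors, ((1 + 1 / (q : ℝ)) ^ 2 * (1 - (q : ℝ)⁻¹)) := by
    rw [prod_mul_distrib]
    ring
  rw [h3]
  refine le_mul_of_one_le_right (Nat.cast_nonneg _) ?_
  refine one_le_prod_real _ _ fun q hq => ?_
  have hq2 : (2 : ℝ) ≤ q := by exact_mod_cast (Nat.prime_of_mem_primeFactors hq).two_le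
  set u := (q : ℝ)⁻¹ with hu
  have hu0 : 0 < u := by positivity
  have hu1 : u ≤ 1 / 2 := by
    rw [hu, inv_le_comm₀ (by positivity) (by positivity)]
    linarith
  rw [one_div, ← hu]
  have h4 : (1 + u) ^ 2 * (1 - u) = 1 + u * (1 - u - u ^ 2) := by ring
  rw [h4]
  have h5 : 0 ≤ 1 - u - u ^ 2 := by nlinarith
  have h6 := mul_nonneg hu0.le h5
  linarith

/-- cells have at most `2^b / M + 1` elements -/
theorem card_cell_le {M b : ℕ} (hM : 1 ≤ M) (Z y : ℕ) :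
    (((range Z).filter (fun x => x / 2 ^ b = y / 2 ^ b ∧ x ≡ y [MOD M])).card : ℝ) ≤
      2 ^ b / M + 1 := by
  have hM0 : (0 : ℝ) < M := by exact_mod_cast hM
  have hM0' : (0 : ℚ) < M := by exact_mod_cast hM
  set s := 2 ^ b * (y / 2 ^ b) with hs
  have h1 : (range Z).filter (fun x => x / 2 ^ b = y / 2 ^ b ∧ x ≡ y [MOD M]) ⊆
      (Ico s (s + 2 ^ b)).filter (fun x => x ≡ y [MOD M]) := by
    intro x hx
    rw [mem_filter] at hx ⊢
    refine ⟨?_, hx.2.2⟩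
    rw [mem_Ico, hs, ← hx.2.1]
    constructor
    · exact Nat.mul_div_le x (2 ^ b)
    · have := Nat.lt_mul_div_succ x (Nat.pow_pos (n := b) (show 0 < 2 by norm_num))
      rw [mul_add, mul_one] at this
      exact this
  have h2 := card_le_card h1
  have h3 := Nat.Ico_filter_modEq_card s (s + 2 ^ b) hM y
  have h4 : (((Ico s (s + 2 ^ b)).filter (fun x => x ≡ y [MOD M])).card : ℤ) ≤
      ⌈(2 ^ b : ℚ) / M⌉ := by
    rw [h3]
    refine max_le ?_ (Int.ceil_nonneg (by positivity))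
    have h5 : (((s + 2 ^ b : ℕ) : ℚ) - y) / M = ((s : ℚ) - y) / M + 2 ^ b / M := by
      push_cast
      ring
    rw [h5]
    have h6 := Int.ceil_add_le (((s : ℚ) - y) / M) ((2 : ℚ) ^ b / M)
    linarith
  have h5 : ((⌈(2 ^ b : ℚ) / M⌉ : ℤ) : ℚ) ≤ 2 ^ b / M + 1 := (Int.ceil_lt_add_one _).le
  have h6 : ((⌈(2 ^ b : ℚ) / M⌉ : ℤ) : ℝ) ≤ 2 ^ b / M + 1 := by
    have := (Rat.cast_le (K := ℝ)).2 h5
    push_cast at this
    exact this
  have h7 : (((range Z).filter (fun x => x / 2 ^ b = y / 2 ^ b ∧ x ≡ y [MOD M])).card : ℝ) ≤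
      ((⌈(2 ^ b : ℚ) / M⌉ : ℤ) : ℝ) := by
    have h8 : (((range Z).filter (fun x => x / 2 ^ b = y / 2 ^ b ∧ x ≡ y [MOD M])).card : ℤ) ≤
        ⌈(2 ^ b : ℚ) / M⌉ := le_trans (by exact_mod_cast h2) h4
    exact_mod_cast h8
  exact h7.trans h6

/-- pairs in the same cell -/
def PPr (A : Finset ℕ) (M b : ℕ) : Finset (ℕ × ℕ) :=
  (A ×ˢ A).filter (fun p => p.1 / 2 ^ b = p.2 / 2 ^ b ∧ p.1 ≡ p.2 [MOD M])

theorem sum_sq_le {M b : ℕ} (hM : 1 ≤ M) (Z : ℕ) (A : Finset ℕ) :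
    ∑ x ∈ range Z, ((A.filter (fun y => y / 2 ^ b = x / 2 ^ b ∧ y ≡ x [MOD M])).card : ℝ) ^ 2 ≤
      (2 ^ b / M + 1) * (PPr A M b).card := by
  classical
  have h1 : ∀ x ∈ range Z,
      ((A.filter (fun y => y / 2 ^ b = x / 2 ^ b ∧ y ≡ x [MOD M])).card : ℝ) ^ 2 =
      ∑ p ∈ A ×ˢ A, if (p.1 / 2 ^ b = x / 2 ^ b ∧ p.1 ≡ x [MOD M]) ∧
        (p.2 / 2 ^ b = x / 2 ^ b ∧ p.2 ≡ x [MOD M]) then (1 : ℝ) else 0 := by
    intro x _
    have e1 : (A ×ˢ A).filter (fun p => (p.1 / 2 ^ b = x / 2 ^ b ∧ p.1 ≡ x [MOD M]) ∧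
        (p.2 / 2 ^ b = x / 2 ^ b ∧ p.2 ≡ x [MOD M])) =
        (A.filter (fun y => y / 2 ^ b = x / 2 ^ b ∧ y ≡ x [MOD M])) ×ˢ
          (A.filter (fun y => y / 2 ^ b = x / 2 ^ b ∧ y ≡ x [MOD M])) := by
      ext p
      simp only [mem_filter, mem_product]
      tauto
    rw [← sum_filter, sum_const, nsmul_eq_mul, mul_one, e1, card_product]
    push_cast
    ring
  rw [sum_congr rfl h1, sum_comm]
  have h2 : ∀ p ∈ A ×ˢ A, (∑ x ∈ range Z, if (p.1 / 2 ^ b = x / 2 ^ b ∧ p.1 ≡ x [MOD M]) ∧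
        (p.2 / 2 ^ b = x / 2 ^ b ∧ p.2 ≡ x [MOD M]) then (1 : ℝ) else 0) ≤
      if p.1 / 2 ^ b = p.2 / 2 ^ b ∧ p.1 ≡ p.2 [MOD M] then ((2 : ℝ) ^ b / M + 1) else 0 := by
    intro p _
    by_cases h : p.1 / 2 ^ b = p.2 / 2 ^ b ∧ p.1 ≡ p.2 [MOD M]
    · rw [if_pos h, ← sum_filter, sum_const, nsmul_eq_mul, mul_one]
      refine le_trans ?_ (card_cell_le (b := b) hM Z p.1)
      exact_mod_cast card_le_card (fun x hx => by
        rw [mem_filter] at hx ⊢
        exact ⟨hx.1, hx.2.1.1.symm, hx.2.1.2.symm⟩)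
    · rw [if_neg h]
      refine le_of_eq (sum_eq_zero fun x _ => if_neg fun h' => h ?_)
      exact ⟨h'.1.1.trans h'.2.1.symm, h'.1.2.trans h'.2.2.symm⟩
  refine (sum_le_sum h2).trans (le_of_eq ?_)
  rw [← sum_filter, sum_const, nsmul_eq_mul, mul_comm]
  rfl

/-- counting the pairs by their difference -/
theorem card_PPr_le {z M b : ℕ} (hM : 1 ≤ M) {A : Finset ℕ} (hA : PS z A) :
    (PPr A M b).card ≤ A.card + 2 * ∑ t ∈ Icc 1 (2 ^ b / M),
      ((range (2 ^ z)).filter (fun n => n.Prime ∧ (n + M * t).Prime)).card := by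
  classical
  set W : ℕ → Finset ℕ := fun t =>
    (range (2 ^ z)).filter (fun n => n.Prime ∧ (n + M * t).Prime) with hW
  have key : ∀ p : ℕ × ℕ, p.1 ∈ A → p.2 ∈ A → p.1 / 2 ^ b = p.2 / 2 ^ b → p.1 ≡ p.2 [MOD M] →
      p.1 < p.2 → p.2 = p.1 + M * ((p.2 - p.1) / M) ∧
        (⟨(p.2 - p.1) / M, p.1⟩ : Σ _ : ℕ, ℕ) ∈ (Icc 1 (2 ^ b / M)).sigma W := by
    intro p h1 h2 h3 h4 h5
    have h6 : M ∣ p.2 - p.1 := (Nat.modEq_iff_dvd' h5.le).1 h4
    have h7 : M * ((p.2 - p.1) / M) = p.2 - p.1 := Nat.mul_div_cancel' h6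
    have h8 : p.2 = p.1 + M * ((p.2 - p.1) / M) := by omega
    refine ⟨h8, ?_⟩
    rw [mem_sigma, mem_Icc]
    refine ⟨⟨?_, ?_⟩, ?_⟩
    · exact (Nat.one_le_div_iff hM).2 (Nat.le_of_dvd (by omega) h6)
    · refine Nat.div_le_div_right ?_
      have e1 := Nat.mul_div_le p.1 (2 ^ b)
      have e2 := Nat.lt_mul_div_succ p.2 (Nat.pow_pos (n := b) (show 0 < 2 by norm_num))
      rw [← h3, mul_add, mul_one] at e2
      omega
    · simp only [hW]
      rw [mem_filter, mem_range, ← h8]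
      exact ⟨(hA _ h1).2, (hA _ h1).1, (hA _ h2).1⟩
  have hsig : ((Icc 1 (2 ^ b / M)).sigma W).card = ∑ t ∈ Icc 1 (2 ^ b / M), (W t).card :=
    card_sigma _ _
  have h1 : ((PPr A M b).filter (fun p => p.1 = p.2)).card ≤ A.card := by
    refine card_le_card_of_injOn (fun p => p.1) ?_ ?_
    · intro p hp
      unfold PPr at hp
      simp only [coe_filter, Set.mem_ofPred_eq, mem_filter, mem_product] at hp
      exact hp.1.1.1
    · intro p hp p' hp' h
      simp only [coe_filter, Set.mem_ofPred_eq] at hp hp'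
      simp only at h
      ext
      · exact h
      · rw [← hp.2, ← hp'.2, h]
  have h2 : ((PPr A M b).filter (fun p => p.1 < p.2)).card ≤
      ∑ t ∈ Icc 1 (2 ^ b / M), (W t).card := by
    rw [← hsig]
    refine card_le_card_of_injOn (fun p => (⟨(p.2 - p.1) / M, p.1⟩ : Σ _ : ℕ, ℕ)) ?_ ?_
    · intro p hp
      unfold PPr at hp
      simp only [coe_filter, Set.mem_ofPred_eq, mem_filter, mem_product] at hp
      exact (key p hp.1.1.1 hp.1.1.2 hp.1.2.1 hp.1.2.2 hp.2).2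
    · intro p hp p' hp' h
      unfold PPr at hp hp'
      simp only [coe_filter, Set.mem_ofPred_eq, mem_filter, mem_product] at hp hp'
      have k1 := (key p hp.1.1.1 hp.1.1.2 hp.1.2.1 hp.1.2.2 hp.2).1
      have k2 := (key p' hp'.1.1.1 hp'.1.1.2 hp'.1.2.1 hp'.1.2.2 hp'.2).1
      simp only [Sigma.mk.injEq, heq_eq_eq] at h
      ext
      · exact h.2
      · rw [k1, k2, h.1, h.2]
  have h3 : ((PPr A M b).filter (fun p => p.2 < p.1)).card ≤
      ∑ t ∈ Icc 1 (2 ^ b / M), (W t).card := by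
    rw [← hsig]
    refine card_le_card_of_injOn (fun p => (⟨(p.1 - p.2) / M, p.2⟩ : Σ _ : ℕ, ℕ)) ?_ ?_
    · intro p hp
      unfold PPr at hp
      simp only [coe_filter, Set.mem_ofPred_eq, mem_filter, mem_product] at hp
      exact (key (p.2, p.1) hp.1.1.2 hp.1.1.1 hp.1.2.1.symm hp.1.2.2.symm hp.2).2
    · intro p hp p' hp' h
      unfold PPr at hp hp'
      simp only [coe_filter, Set.mem_ofPred_eq, mem_filter, mem_product] at hp hp'
      have k1 := (key (p.2, p.1) hp.1.1.2 hp.1.1.1 hp.1.2.1.symm hp.1.2.2.symm hp.2).1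
      have k2 := (key (p'.2, p'.1) hp'.1.1.2 hp'.1.1.1 hp'.1.2.1.symm hp'.1.2.2.symm hp'.2).1
      simp only [Sigma.mk.injEq, heq_eq_eq] at h
      simp only at k1 k2
      ext
      · rw [k1, k2, h.1, h.2]
      · exact h.2
  have h4 : (PPr A M b).card ≤ ((PPr A M b).filter (fun p => p.1 = p.2)).card +
      ((PPr A M b).filter (fun p => p.1 < p.2)).card +
      ((PPr A M b).filter (fun p => p.2 < p.1)).card := by
    have h5 : PPr A M b ⊆ ((PPr A M b).filter (fun p => p.1 = p.2) ∪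
        (PPr A M b).filter (fun p => p.1 < p.2)) ∪ (PPr A M b).filter (fun p => p.2 < p.1) := by
      intro p hp
      simp only [mem_union, mem_filter]
      rcases lt_trichotomy p.1 p.2 with h | h | h
      · exact Or.inl (Or.inr ⟨hp, h⟩)
      · exact Or.inl (Or.inl ⟨hp, h⟩)
      · exact Or.inr ⟨hp, h⟩
    refine (card_le_card h5).trans ((card_union_le _ _).trans ?_)
    exact Nat.add_le_add_right (card_union_le _ _) _
  change _ ≤ A.card + 2 * ∑ t ∈ Icc 1 (2 ^ b / M), (W t).card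
  omega

/-- the sum of squares of the cell averages -/
theorem sum_cd_sq_le {z M b : ℕ} (hM : 1 ≤ M) (hMb : (M : ℝ) ≤ 2 ^ b) (A : Finset ℕ) :
    ∑ x ∈ range (2 ^ z), cd (FA z A) M b x ^ 2 ≤
      2 * ((M : ℝ) / 2 ^ b) * Real.log ((2 : ℝ) ^ z) ^ 2 * (PPr A M b).card := by
  classical
  have hM0 : (0 : ℝ) < M := by exact_mod_cast hM
  have h2b : (0 : ℝ) < 2 ^ b := by positivity
  set lz := Real.log ((2 : ℝ) ^ z) with hlz
  have h1 : ∀ x : ℕ, cd (FA z A) M b x ^ 2 = ((M : ℝ) / 2 ^ b) ^ 2 * lz ^ 2 *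
      ((A.filter (fun y => y / 2 ^ b = x / 2 ^ b ∧ y ≡ x [MOD M])).card : ℝ) ^ 2 := by
    intro x
    have h2 : ∑ y ∈ (blo b x).filter (fun y => y ≡ x [MOD M]), FA z A y =
        lz * ((A.filter (fun y => y / 2 ^ b = x / 2 ^ b ∧ y ≡ x [MOD M])).card : ℝ) := by
      unfold FA
      rw [← hlz, ← sum_filter, sum_const, nsmul_eq_mul, mul_comm]
      congr 2
      refine congrArg card ?_
      ext y
      simp only [mem_filter, blo, mem_Ico]
      have e1 : (2 ^ b * (x / 2 ^ b) ≤ y ∧ y < 2 ^ b * (x / 2 ^ b + 1)) ↔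
          y / 2 ^ b = x / 2 ^ b := by
        have hp : 0 < 2 ^ b := Nat.pow_pos (by norm_num)
        rw [Nat.div_eq_iff hp]
        rw [mul_comm, mul_add, mul_one]
        constructor
        · rintro ⟨h1, h2⟩
          exact ⟨h1, by rw [mul_comm] at h2; omega⟩
        · rintro ⟨h1, h2⟩
          exact ⟨h1, by rw [mul_comm]; omega⟩
      rw [e1]
      tauto
    unfold cd
    rw [h2]
    ring
  rw [sum_congr rfl (fun x _ => h1 x), ← mul_sum]
  have h3 := sum_sq_le (b := b) hM (2 ^ z) A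
  have h4 : ((2 : ℝ) ^ b / M + 1) ≤ 2 * (2 ^ b / M) := by
    have : 1 ≤ (2 : ℝ) ^ b / M := by rwa [le_div_iff₀ hM0, one_mul]
    linarith
  calc ((M : ℝ) / 2 ^ b) ^ 2 * lz ^ 2 * ∑ x ∈ range (2 ^ z),
        ((A.filter (fun y => y / 2 ^ b = x / 2 ^ b ∧ y ≡ x [MOD M])).card : ℝ) ^ 2
      ≤ ((M : ℝ) / 2 ^ b) ^ 2 * lz ^ 2 * (2 * (2 ^ b / M) * (PPr A M b).card) := by
        refine mul_le_mul_of_nonneg_left (h3.trans ?_) (by positivity)
        exact mul_le_mul_of_nonneg_right h4 (Nat.cast_nonneg _)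
    _ = 2 * ((M : ℝ) / 2 ^ b) * lz ^ 2 * (PPr A M b).card := by
        field_simp

/-- C3 -/
theorem en_le_of (hPS : PairSieve) :
    ∃ C1 : ℝ, 1 ≤ C1 ∧ ∀ M : ℕ, 1 ≤ M → ∀ θ : ℝ, 0 < θ → ∃ z0 : ℕ, ∀ z : ℕ, z0 ≤ z →
    ∀ A : Finset ℕ, PS z A → ∀ b : ℕ, b ≤ z → ((2 : ℝ) ^ z) ^ θ ≤ 2 ^ b → En z A M b ≤ C1 := by
  classical
  obtain ⟨C, hC, Z0, hsv⟩ := hPS
  obtain ⟨C', hC', hpsi⟩ := psi_avg 2
  refine ⟨4 * C * C' + 1, by nlinarith [mul_pos hC hC'], ?_⟩
  intro M hM θ hθ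
  have hM0 : (0 : ℝ) < M := by exact_mod_cast hM
  have hφ : (0 : ℝ) < M.totient := by exact_mod_cast Nat.totient_pos.2 hM
  -- large `z`
  have hev : ∀ᶠ x : ℝ in Filter.atTop, 2 * M * Real.log x ^ 2 ≤ x ^ θ := by
    have h1 := isLittleO_log_rpow_rpow_atTop (s := θ) (2 : ℝ) hθ
    have h2 := h1.bound (show (0 : ℝ) < 1 / (2 * M) by positivity)
    filter_upwards [h2, Filter.eventually_ge_atTop (1 : ℝ)] with x hx hx1
    rw [Real.norm_eq_abs, Real.norm_eq_abs,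
      abs_of_nonneg (Real.rpow_nonneg (by linarith : (0 : ℝ) ≤ x) θ)] at hx
    have h3 : Real.log x ^ (2 : ℝ) = Real.log x ^ 2 := by
      rw [← Real.rpow_natCast]; norm_num
    rw [h3, abs_of_nonneg (sq_nonneg (Real.log x)), one_div, ← div_eq_inv_mul, le_div_iff₀ (by positivity)]
      at hx
    linarith
  have hev2 : ∀ᶠ x : ℝ in Filter.atTop, (M : ℝ) ≤ x ^ θ :=
    (tendsto_rpow_atTop hθ).eventually_ge_atTop _
  have hpow : Filter.Tendsto (fun z : ℕ => (2 : ℝ) ^ z) Filter.atTop Filter.atTop :=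
    tendsto_pow_atTop_atTop_of_one_lt (by norm_num)
  have hev3 : ∀ᶠ z : ℕ in Filter.atTop, 2 * M * Real.log ((2 : ℝ) ^ z) ^ 2 ≤ ((2 : ℝ) ^ z) ^ θ ∧
      (M : ℝ) ≤ ((2 : ℝ) ^ z) ^ θ ∧ (max Z0 2 : ℕ) ≤ (2 : ℝ) ^ z := by
    filter_upwards [hpow.eventually hev, hpow.eventually hev2,
      hpow.eventually_ge_atTop ((max Z0 2 : ℕ) : ℝ)] with z h1 h2 h3
    exact ⟨h1, h2, h3⟩
  obtain ⟨z0, hz0⟩ := Filter.eventually_atTop.1 hev3
  refine ⟨z0, fun z hz A hA b _ hb2 => ?_⟩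
  obtain ⟨hz1, hz2, hz3⟩ := hz0 z hz
  have hMb : (M : ℝ) ≤ 2 ^ b := hz2.trans hb2
  have hZ0 : Z0 ≤ 2 ^ z := by
    have : ((max Z0 2 : ℕ) : ℝ) ≤ ((2 ^ z : ℕ) : ℝ) := by push_cast; push_cast at hz3; exact hz3
    exact (le_max_left _ _).trans (by exact_mod_cast this)
  have hZ2 : 2 ≤ 2 ^ z := by
    have : ((max Z0 2 : ℕ) : ℝ) ≤ ((2 ^ z : ℕ) : ℝ) := by push_cast; push_cast at hz3; exact hz3
    exact (le_max_right Z0 2).trans (by exact_mod_cast this)
  set lz := Real.log ((2 : ℝ) ^ z) with hlz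
  have hlz0 : 0 < lz := Real.log_pos (by
    have : (2 : ℝ) ≤ 2 ^ z := by exact_mod_cast hZ2
    linarith)
  have h2b : (0 : ℝ) < 2 ^ b := by positivity
  have h2z : (0 : ℝ) < 2 ^ z := by positivity
  set L := 2 ^ b / M with hL
  -- the pairs
  have hsum : lz ^ 2 * ∑ t ∈ Icc 1 L,
      (((range (2 ^ z)).filter (fun n => n.Prime ∧ (n + M * t).Prime)).card : ℝ) ≤
      C * 2 ^ z * (M / M.totient) * (C' * (2 ^ b / M)) := by
    have h1 : ∀ t ∈ Icc 1 L,
        lz ^ 2 * (((range (2 ^ z)).filter (fun n => n.Prime ∧ (n + M * t).Prime)).card : ℝ) ≤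
          C * 2 ^ z * (M / M.totient) * Psi 2 (t : ℤ) := by
      intro t ht
      have ht1 : 1 ≤ t := (mem_Icc.1 ht).1
      have ht0 : (0 : ℝ) < t := by exact_mod_cast ht1
      have hφt : (0 : ℝ) < t.totient := by exact_mod_cast Nat.totient_pos.2 ht1
      have h2 := hsv (2 ^ z) hZ0 (M * t) (Nat.mul_pos hM ht1)
      have h3 : (((M * t : ℕ) : ℝ)) / (M * t).totient ≤ (M / M.totient) * Psi 2 (t : ℤ) := by
        have h4 : ((M.totient : ℝ)) * t.totient ≤ (M * t).totient := by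
          exact_mod_cast Nat.totient_super_multiplicative M t
        calc (((M * t : ℕ) : ℝ)) / (M * t).totient ≤ ((M * t : ℕ) : ℝ) / (M.totient * t.totient) :=
              div_le_div_of_nonneg_left (Nat.cast_nonneg _) (by positivity) h4
          _ = (M / M.totient) * (t / t.totient) := by
              push_cast
              field_simp
          _ ≤ (M / M.totient) * Psi 2 (t : ℤ) :=
              mul_le_mul_of_nonneg_left (div_totient_le ht1) (by positivity)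
      have h5 : Real.log (((2 ^ z : ℕ) : ℝ)) = lz := by
        rw [hlz]; push_cast; rfl
      rw [h5] at h2
      calc lz ^ 2 * (((range (2 ^ z)).filter (fun n => n.Prime ∧ (n + M * t).Prime)).card : ℝ)
          ≤ lz ^ 2 * (C * ((((M * t : ℕ) : ℝ)) / (M * t).totient) *
              (((2 ^ z : ℕ) : ℝ) / lz ^ 2)) := mul_le_mul_of_nonneg_left h2 (by positivity)
        _ = C * 2 ^ z * ((((M * t : ℕ) : ℝ)) / (M * t).totient) := by
            push_cast
            field_simp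
        _ ≤ C * 2 ^ z * ((M / M.totient) * Psi 2 (t : ℤ)) :=
            mul_le_mul_of_nonneg_left h3 (by positivity)
        _ = _ := by ring
    rw [mul_sum]
    refine (sum_le_sum h1).trans ?_
    rw [← mul_sum]
    refine mul_le_mul_of_nonneg_left ?_ (by positivity)
    have hL1 : 1 ≤ L := by
      rw [hL]
      exact (Nat.one_le_div_iff hM).2 (by exact_mod_cast hMb)
    have h2 := hpsi L hL1 1 (by
      intro i hi
      have e1 : ((1 : ℤ) + i).natAbs = 1 + i := by omega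
      rw [e1]
      have e2 : L < 4 ^ L := Nat.lt_pow_self (by norm_num)
      omega)
    have h3 : ∑ t ∈ Icc 1 L, Psi 2 (t : ℤ) = ∑ i ∈ range L, Psi 2 (1 + i) := by
      have e1 : Icc 1 L = Ico 1 (L + 1) := by
        ext t; simp only [mem_Icc, mem_Ico]; omega
      rw [e1, sum_Ico_eq_sum_range]
      refine sum_congr (by simp) fun i _ => ?_
      push_cast
      rfl
    rw [h3]
    refine h2.trans (mul_le_mul_of_nonneg_left ?_ hC'.le)
    have := Nat.cast_div_le (α := ℝ) (m := 2 ^ b) (n := M)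
    push_cast at this
    exact this
  have hcard : (A.card : ℝ) ≤ 2 ^ z := by
    have h1 : A ⊆ range (2 ^ z) := fun p hp => mem_range.2 (hA p hp).2
    have h2 := card_le_card h1
    rw [card_range] at h2
    exact_mod_cast h2
  have hpairs : ((PPr A M b).card : ℝ) ≤ A.card + 2 * ∑ t ∈ Icc 1 L,
      (((range (2 ^ z)).filter (fun n => n.Prime ∧ (n + M * t).Prime)).card : ℝ) := by
    exact_mod_cast card_PPr_le (b := b) hM hA
  have hmain := sum_cd_sq_le (z := z) hM hMb A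
  rw [← hlz] at hmain
  have h3 : ∑ x ∈ range (2 ^ z), cd (FA z A) M b x ^ 2 ≤
      2 ^ z + 4 * C * C' * 2 ^ z * (M / M.totient) := by
    calc ∑ x ∈ range (2 ^ z), cd (FA z A) M b x ^ 2
        ≤ 2 * ((M : ℝ) / 2 ^ b) * lz ^ 2 * (PPr A M b).card := hmain
      _ ≤ 2 * ((M : ℝ) / 2 ^ b) * lz ^ 2 * (A.card + 2 * ∑ t ∈ Icc 1 L,
          (((range (2 ^ z)).filter (fun n => n.Prime ∧ (n + M * t).Prime)).card : ℝ)) :=
          mul_le_mul_of_nonneg_left hpairs (by positivity)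
      _ = 2 * M * lz ^ 2 / 2 ^ b * A.card + 4 * ((M : ℝ) / 2 ^ b) * (lz ^ 2 * ∑ t ∈ Icc 1 L,
          (((range (2 ^ z)).filter (fun n => n.Prime ∧ (n + M * t).Prime)).card : ℝ)) := by ring
      _ ≤ 1 * 2 ^ z + 4 * ((M : ℝ) / 2 ^ b) *
          (C * 2 ^ z * (M / M.totient) * (C' * (2 ^ b / M))) := by
          refine add_le_add (mul_le_mul ?_ hcard (Nat.cast_nonneg _) zero_le_one) ?_
          · rw [div_le_one h2b]
            exact hz1.trans hb2
          · exact mul_le_mul_of_nonneg_left hsum (by positivity)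
      _ = 2 ^ z + 4 * C * C' * 2 ^ z * (M / M.totient) := by
          field_simp
  unfold En
  have h4 : (M.totient : ℝ) / M ≤ 1 := by
    rw [div_le_one hM0]
    exact_mod_cast Nat.totient_le M
  calc (M.totient : ℝ) / M * ((∑ x ∈ range (2 ^ z), cd (FA z A) M b x ^ 2) / 2 ^ z)
      ≤ (M.totient : ℝ) / M * ((2 ^ z + 4 * C * C' * 2 ^ z * (M / M.totient)) / 2 ^ z) :=
        mul_le_mul_of_nonneg_left (div_le_div_of_nonneg_right h3 h2z.le) (by positivity)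
    _ = (M.totient : ℝ) / M + 4 * C * C' := by
        field_simp
    _ ≤ 4 * C * C' + 1 := by linarith

end EnLe

end

end Pool.Agent.Helper57.NX3
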